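import Pool.Agent.P.MP_b91a16_ag.JB.Final

/-!
The strong motivic monodromy conjecture at the origin of affine space, with the local
Bernstein-Sato polynomial, for every composition of a Newton nondegenerate polynomial with
norms of split simple Jordan algebras: determinants, symmetric determinants, Pfaffians,
quadratic forms and the `E₆` cubic.
-/

namespace Pool.Agent.Old.MP_b91a16_ag.JordanComp

open Pool.Agent.P.MP_b91a16_ag

theorem result (k : Type) [Field k] [CharZero k] (r l N : ℕ) (β : Fin r → Type)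
    (P : ∀ i, MvPolynomial (β i) k) (hP : ∀ i, JB.IsNorm k (β i) (P i))
    (ε : (Σ i, β i) ⊕ Fin l ≃ Fin N) (F : MvPolynomial (Fin (r + l)) k)
    (hF : F ≠ 0) (h0 : MvPolynomial.eval 0 F = 0) (hN : Nondeg F) :
    ∃ S : Finset (ℕ × ℕ), InPoleRing (Linv k) S (zeta (JB.comp P ε F)) ∧
      ∀ p ∈ S, 0 < p.1 ∧ 0 < p.2 ∧ ∀ b : Polynomial k,
        LocalBernsteinEq (JB.comp P ε F) b → b.eval (-(p.1 : k) / (p.2 : k)) = 0 :=
  JB.main P hP ε F hF (by simpa using h0) hN

end Pool.Agent.Old.MP_b91a16_ag.JordanComp
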