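import Pool.Agent.P.MP_b91a16_ag.St.Final

/-!
The strong motivic monodromy conjecture at the origin of affine space, with the local
Bernstein-Sato polynomial, for every stably nondegenerate polynomial.
-/

namespace Pool.Agent.Old.MP_b91a16_ag.StablyNondeg

open Pool.Agent.P.MP_b91a16_ag

theorem result (k : Type) [Field k] [CharZero k] (n : ℕ) (f : MvPolynomial (Fin n) k)
    (hf : f ≠ 0) (h0 : MvPolynomial.eval 0 f = 0) (hN : St.StablyNondeg f) :
    ∃ S : Finset (ℕ × ℕ), InPoleRing (Linv k) S (zeta f) ∧ ∀ p ∈ S, 0 < p.1 ∧ 0 < p.2 ∧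
      ∀ b : Polynomial k, LocalBernsteinEq f b → b.eval (-(p.1 : k) / (p.2 : k)) = 0 :=
  St.main f hf (by simpa using h0) hN

end Pool.Agent.Old.MP_b91a16_ag.StablyNondeg
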